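import Pool.Agent.H43.TC.Targets

/-!
# The region is closed
-/

set_option autoImplicit false

namespace Pool.Agent.H43.TC

theorem cls (hREG : T_REG) : T_CLS := by
  intro k t hk
  apply isClosed_of_closure_subset
  rintro ⟨x, y⟩ hp
  rw [hREG k t x y hk]
  intro ε hε n₀
  rw [Metric.mem_closure_iff] at hp
  obtain ⟨⟨x1, y1⟩, hq, hd⟩ := hp ε hε
  rw [hREG k t x1 y1 hk] at hq
  obtain ⟨n, c, hn, h1, h2, h3⟩ := hq (ε / 2) (by linarith) n₀
  rw [Prod.dist_eq, max_lt_iff, Real.dist_eq, Real.dist_eq] at hd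
  obtain ⟨hx, hy⟩ := hd
  rw [abs_lt] at hx hy h2 h3
  refine ⟨n, c, hn, h1, ?_, ?_⟩
  · rw [abs_lt]
    constructor <;> simp only at hx <;> linarith [hx.1, hx.2, h2.1, h2.2]
  · rw [abs_lt]
    constructor <;> simp only at hy <;> linarith [hy.1, hy.2, h3.1, h3.2]

end Pool.Agent.H43.TC
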