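import Pool.Agent.H43.TC.Targets

/-!
# Linear patterns
-/

set_option autoImplicit false

namespace Pool.Agent.H43.TC

theorem lin_e {k m : ℕ} (a : Fin k → ZMod m) (i : Fin k) : lin a (e i) = a i := by
  change ∑ j, a j * (e i : Tor k m) j = a i
  rw [Finset.sum_eq_single i]
  · simp [e]
  · intro j _ hj
    simp [e, Pi.single_eq_of_ne hj]
  · intro h
    exact absurd (Finset.mem_univ i) h

theorem walks_const_true {G : Type} [AddCommGroup G] {k : ℕ} (s : Fin k → G) (t : ℕ) :
    ∀ x : G, walks s (fun _ => true) true t x = (2 * k) ^ t := by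
  induction t with
  | zero => intro x; simp [walks]
  | succ t ih =>
    intro x
    simp only [walks, if_true, ih]
    simp
    ring

theorem walks_const_false {G : Type} [AddCommGroup G] {k : ℕ} (s : Fin k → G) (t : ℕ) :
    ∀ x : G, walks s (fun _ => true) false t x = 0 := by
  intro x
  cases t <;> simp [walks]

theorem lin_mem (hHOM : T_HOM) (hAVG : T_AVG) (hREG : T_REG) (hPAT : T_PAT) (hNER : T_NER) :
    T_LIN := by
  intro k m t _ i₀ a hsurj f r WR WB hr h2r hmr hWR hWB
  have hk : 0 < k := i₀.pos
  have hm : 0 < m := Nat.pos_of_ne_zero (NeZero.ne m)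
  have hmR : (0 : ℝ) < m := by exact_mod_cast hm
  have hkR : (0 : ℝ) < k := by exact_mod_cast hk
  have hrm : r < m := by omega
  have hmr' : (0 : ℝ) < (m : ℝ) - r := by
    have : (r : ℝ) < m := by exact_mod_cast hrm
    linarith
  have hP : (0 : ℝ) < (2 * k : ℝ) ^ t := by positivity
  have hmk : (0 : ℝ) < (m : ℝ) ^ k := by positivity
  have hcT : Fintype.card (Tor k m) = m ^ k := by
    simp [Tor, ZMod.card]
  -- averaging
  have avg : ∀ g : ZMod m → ℕ, (m : ℝ) * ((∑ x : Tor k m, g (lin a x) : ℕ) : ℝ) =
      (m : ℝ) ^ k * ((∑ y, g y : ℕ) : ℝ) := by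
    intro g
    have h := hAVG (Tor k m) (ZMod m) (lin a) hsurj g
    rw [ZMod.card, hcT] at h
    exact_mod_cast h
  -- the first colouring
  have hd1 : dens (fun x : Tor k m => f (lin a x)) true = (r : ℝ) / m := by
    have h := avg (fun u => if f u = true then 1 else 0)
    have h1 : size (fun x : Tor k m => f (lin a x)) true =
        ∑ x : Tor k m, (if f (lin a x) = true then 1 else 0) := by
      unfold size
      rw [Finset.card_filter]
    have h2 : (∑ y : ZMod m, (if f y = true then 1 else 0)) = r := by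
      rw [← hr, Finset.card_filter]
    unfold dens
    rw [h1]
    rw [h2] at h
    rw [div_eq_div_iff hmk.ne' hmR.ne']
    linarith
  have hm1 : ∀ (b : Bool) (W : ℕ), ∑ u, walks a f b t u = W →
      mono (fun x : Tor k m => f (lin a x)) b t = (W : ℝ) / (m * (2 * k : ℝ) ^ t) := by
    intro b W hW
    have h1 : total (fun x : Tor k m => f (lin a x)) b t =
        ∑ x : Tor k m, walks a f b t (lin a x) := by
      unfold total
      refine Finset.sum_congr rfl (fun x _ => ?_)
      have := hHOM (Tor k m) (ZMod m) k e (lin a) f b t x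
      rw [this]
      congr 1
      funext i
      exact lin_e a i
    have h := avg (fun u => walks a f b t u)
    rw [hW, ← h1] at h
    unfold mono
    rw [div_eq_div_iff (by positivity) (by positivity)]
    linear_combination ((2 * k : ℝ) ^ t) * h
  -- the second colouring
  have hd2 : dens (fun _ : Tor k m => true) true = 1 := by
    have : size (fun _ : Tor k m => true) true = m ^ k := by
      unfold size
      rw [← hcT]
      simp
    unfold dens
    rw [this]
    push_cast
    exact div_self hmk.ne'
  have hm2 : mono (fun _ : Tor k m => true) true t = 1 := by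
    have : total (fun _ : Tor k m => true) true t = m ^ k * (2 * k) ^ t := by
      unfold total
      simp only [walks_const_true]
      rw [Finset.sum_const, Finset.card_univ, hcT, smul_eq_mul]
    unfold mono
    rw [this]
    push_cast
    exact div_self (by positivity)
  have hm3 : mono (fun _ : Tor k m => true) false t = 0 := by
    have : total (fun _ : Tor k m => true) false t = 0 := by
      unfold total
      simp only [walks_const_false]
      simp
    unfold mono
    rw [this]
    simp
  have n1 := hPAT k m t i₀ (fun x => f (lin a x))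
  rw [hd1, hm1 true WR hWR, hm1 false WB hWB] at n1
  have n2 := hPAT k m t i₀ (fun _ => true)
  rw [hd2, hm2, hm3] at n2
  have n3 := hNER k t i₀ _ _ _ _ _ _ n1 n2 m (2 * m - 2 * r) (by omega) (by omega)
  have hM : ((2 * m - 2 * r : ℕ) : ℝ) = 2 * ((m : ℝ) - r) := by
    rw [Nat.cast_sub (by omega)]
    push_cast
    ring
  rw [hM] at n3
  rw [hREG k t _ _ hk]
  have e1 : (m : ℝ) / (2 * ((m : ℝ) - r)) * ((r : ℝ) / m) +
      (1 - (m : ℝ) / (2 * ((m : ℝ) - r))) * 1 = 1 / 2 := by
    field_simp
    ring
  have e2 : (m : ℝ) / (2 * ((m : ℝ) - r)) * ((WR : ℝ) / (m * (2 * k : ℝ) ^ t)) +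
      (1 - (m : ℝ) / (2 * ((m : ℝ) - r))) * 1 =
      (((WR : ℝ) / (2 * k : ℝ) ^ t + m - 2 * r) / (m - r)) / 2 := by
    field_simp
    ring
  have e3 : (m : ℝ) / (2 * ((m : ℝ) - r)) * ((WB : ℝ) / (m * (2 * k : ℝ) ^ t)) +
      (1 - (m : ℝ) / (2 * ((m : ℝ) - r))) * 0 =
      (((WB : ℝ) / (2 * k : ℝ) ^ t) / (m - r)) / 2 := by
    field_simp
    ring
  rw [e1, e2, e3] at n3
  exact n3

end Pool.Agent.H43.TC
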