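import Pool.Agent.H43.TC.Targets

/-!
# From a certificate to the inequality for all colourings
-/

set_option autoImplicit false

namespace Pool.Agent.H43.TC

section

variable {G : Type} [AddCommGroup G] (B : G → ℕ)

/-- four consecutive cells as a number -/
def ln (d x : G) : ℕ := B x + 2 * B (x + d) + 4 * B (x + d + d) + 8 * B (x + d + d + d)

theorem ln_lt (hB : ∀ x, B x ≤ 1) (d x : G) : ln B d x < 16 := by
  unfold ln
  have h0 := hB x
  have h1 := hB (x + d)
  have h2 := hB (x + d + d)
  have h3 := hB (x + d + d + d)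
  omega

theorem ln_bits (hB : ∀ x, B x ≤ 1) (d x : G) : ln B d x % 2 = B x ∧
    ln B d x / 2 % 2 = B (x + d) ∧ ln B d x / 4 % 2 = B (x + d + d) ∧
      ln B d x / 8 % 2 = B (x + d + d + d) := by
  unfold ln
  have h0 := hB x
  have h1 := hB (x + d)
  have h2 := hB (x + d + d)
  have h3 := hB (x + d + d + d)
  omega

theorem sp_ln (hB : ∀ x, B x ≤ 1) (d x : G) : sp (ln B d x) =
    B x + 16 * B (x + d) + 256 * B (x + d + d) + 4096 * B (x + d + d + d) := by
  obtain ⟨h0, h1, h2, h3⟩ := ln_bits B hB d x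
  unfold sp
  rw [h0, h1, h2, h3]

theorem pc_ln (hB : ∀ x, B x ≤ 1) (d x : G) : pc (ln B d x) =
    B x + B (x + d) + B (x + d + d) + B (x + d + d + d) := by
  obtain ⟨h0, h1, h2, h3⟩ := ln_bits B hB d x
  unfold pc
  rw [h0, h1, h2, h3]

theorem and15 (r : ℕ) (hr : r < 16) : r &&& 15 = r := by
  interval_cases r <;> rfl

theorem and6 (r : ℕ) (hr : r < 16) : pc (r &&& 6) = r / 2 % 2 + r / 4 % 2 := by
  interval_cases r <;> rfl

theorem pc_and6 (hB : ∀ x, B x ≤ 1) (d x : G) : pc (ln B d x &&& 6) =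
    B (x + d) + B (x + d + d) := by
  obtain ⟨h0, h1, h2, h3⟩ := ln_bits B hB d x
  rw [and6 _ (ln_lt B hB d x), h1, h2]

/-- the whole window, by rows and by columns -/
theorem window (hB : ∀ x, B x ≤ 1) (u v x : G) :
    (sp (ln B v x) + 2 * sp (ln B v (x + u)) + 4 * sp (ln B v (x + u + u)) +
      8 * sp (ln B v (x + u + u + u))) = ln B u x + 16 * ln B u (x + v) +
        256 * ln B u (x + v + v) + 4096 * ln B u (x + v + v + v) := by
  rw [sp_ln B hB, sp_ln B hB, sp_ln B hB, sp_ln B hB]
  unfold ln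
  have a1 : x + v + u = x + u + v := by abel
  have a2 : x + v + u + u = x + u + u + v := by abel
  have a3 : x + v + u + u + u = x + u + u + u + v := by abel
  have b1 : x + v + v + u = x + u + v + v := by abel
  have b2 : x + v + v + u + u = x + u + u + v + v := by abel
  have b3 : x + v + v + u + u + u = x + u + u + u + v + v := by abel
  have c1 : x + v + v + v + u = x + u + v + v + v := by abel
  have c2 : x + v + v + v + u + u = x + u + u + v + v + v := by abel
  have c3 : x + v + v + v + u + u + u = x + u + u + u + v + v + v := by abel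
  rw [a3, b3, c3, a2, b2, c2, a1, b1, c1]
  ring

theorem window_mod (hB : ∀ x, B x ≤ 1) (u v x : G) :
    (sp (ln B v x) + 2 * sp (ln B v (x + u)) + 4 * sp (ln B v (x + u + u)) +
      8 * sp (ln B v (x + u + u + u))) % 4096 = ln B u x + 16 * ln B u (x + v) +
        256 * ln B u (x + v + v) := by
  rw [window B hB]
  have h0 := ln_lt B hB u x
  have h1 := ln_lt B hB u (x + v)
  have h2 := ln_lt B hB u (x + v + v)
  omega

theorem window_div (hB : ∀ x, B x ≤ 1) (u v x : G) :
    (sp (ln B v x) + 2 * sp (ln B v (x + u)) + 4 * sp (ln B v (x + u + u)) +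
      8 * sp (ln B v (x + u + u + u))) / 16 = ln B u (x + v) +
        16 * ln B u (x + v + v) + 256 * ln B u (x + v + v + v) := by
  rw [window B hB]
  have h0 := ln_lt B hB u x
  omega

end

section

variable {G : Type} [AddCommGroup G] (c : G → Bool)

/-- blue indicator -/
def bb (x : G) : ℕ := if c x = false then 1 else 0

omit [AddCommGroup G] in
theorem bb_le (x : G) : bb c x ≤ 1 := by
  unfold bb
  split_ifs <;> omega

/-- the degree in a colour -/
def dgg (b : Bool) (d d' x : G) : ℕ :=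
  (if c (x + d) = b then 1 else 0) + (if c (x - d) = b then 1 else 0) +
    ((if c (x + d') = b then 1 else 0) + (if c (x - d') = b then 1 else 0))

/-- the edge contribution -/
def edd (b : Bool) (d d' x : G) : ℕ :=
  if c x = b ∧ c (x + d) = b then dgg c b d d' x * dgg c b d d' (x + d) else 0

omit [AddCommGroup G] in
theorem tf (x : G) : (if c x = true then 1 else 0 : ℕ) = 1 - bb c x := by
  unfold bb
  cases h : c x <;> simp

theorem dgg_false (d d' x : G) : dgg c false d d' x =
    bb c (x + d) + bb c (x - d) + (bb c (x + d') + bb c (x - d')) := rfl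

theorem dgg_true (d d' x : G) : dgg c true d d' x =
    4 - (bb c (x + d) + bb c (x - d) + (bb c (x + d') + bb c (x - d'))) := by
  unfold dgg
  rw [tf, tf, tf, tf]
  have h0 := bb_le c (x + d)
  have h1 := bb_le c (x - d)
  have h2 := bb_le c (x + d')
  have h3 := bb_le c (x - d')
  omega

theorem eB_ln (d d' x : G) :
    eB (ln (bb c) d x) (ln (bb c) d (x + d')) (ln (bb c) d (x + d' + d')) =
      edd c false d d' (x + d' + d) := by
  obtain ⟨p0, p1, p2, p3⟩ := ln_bits (bb c) (bb_le c) d x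
  obtain ⟨q0, q1, q2, q3⟩ := ln_bits (bb c) (bb_le c) d (x + d')
  obtain ⟨r0, r1, r2, r3⟩ := ln_bits (bb c) (bb_le c) d (x + d' + d')
  unfold eB edd
  rw [p1, p2, q0, q1, q2, q3, r1, r2, dgg_false, dgg_false]
  have a1 : x + d' + d - d = x + d' := by abel
  have a2 : x + d' + d + d' = x + d' + d' + d := by abel
  have a3 : x + d' + d - d' = x + d := by abel
  have a4 : x + d' + d + d - d = x + d' + d := by abel
  have a5 : x + d' + d + d + d' = x + d' + d' + d + d := by abel
  have a6 : x + d' + d + d - d' = x + d + d := by abel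
  rw [a1, a2, a3, a4, a5, a6]
  by_cases h1 : c (x + d' + d) = false
  · by_cases h2 : c (x + d' + d + d) = false
    · rw [if_pos ⟨h1, h2⟩]
      have e1 : bb c (x + d' + d) = 1 := if_pos h1
      have e2 : bb c (x + d' + d + d) = 1 := if_pos h2
      rw [e1, e2]
      ring
    · rw [if_neg (fun h => h2 h.2)]
      have e2 : bb c (x + d' + d + d) = 0 := if_neg h2
      rw [e2]
      simp
  · rw [if_neg (fun h => h1 h.1)]
    have e1 : bb c (x + d' + d) = 0 := if_neg h1
    rw [e1]
    simp

theorem eR_ln (d d' x : G) :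
    eR (ln (bb c) d x) (ln (bb c) d (x + d')) (ln (bb c) d (x + d' + d')) =
      edd c true d d' (x + d' + d) := by
  obtain ⟨p0, p1, p2, p3⟩ := ln_bits (bb c) (bb_le c) d x
  obtain ⟨q0, q1, q2, q3⟩ := ln_bits (bb c) (bb_le c) d (x + d')
  obtain ⟨r0, r1, r2, r3⟩ := ln_bits (bb c) (bb_le c) d (x + d' + d')
  unfold eR edd
  rw [p1, p2, q0, q1, q2, q3, r1, r2, dgg_true, dgg_true]
  have a1 : x + d' + d - d = x + d' := by abel
  have a2 : x + d' + d + d' = x + d' + d' + d := by abel
  have a3 : x + d' + d - d' = x + d := by abel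
  have a4 : x + d' + d + d - d = x + d' + d := by abel
  have a5 : x + d' + d + d + d' = x + d' + d' + d + d := by abel
  have a6 : x + d' + d + d - d' = x + d + d := by abel
  rw [a1, a2, a3, a4, a5, a6]
  by_cases h1 : c (x + d' + d) = true
  · by_cases h2 : c (x + d' + d + d) = true
    · rw [if_pos ⟨h1, h2⟩]
      have e1 : bb c (x + d' + d) = 0 := if_neg (by simp [h1])
      have e2 : bb c (x + d' + d + d) = 0 := if_neg (by simp [h2])
      rw [e1, e2]
      have f1 : bb c (x + d') + bb c (x + d) + bb c (x + d' + d' + d) =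
        0 + bb c (x + d') + (bb c (x + d' + d' + d) + bb c (x + d)) := by ring
      have f2 : bb c (x + d' + d + d + d) + bb c (x + d + d) + bb c (x + d' + d' + d + d) =
        bb c (x + d' + d + d + d) + 0 + (bb c (x + d' + d' + d + d) + bb c (x + d + d)) := by ring
      rw [f1, f2]
      ring
    · rw [if_neg (fun h => h2 h.2)]
      have e2 : bb c (x + d' + d + d) = 1 := if_pos (by simpa using h2)
      rw [e2]
      simp
  · rw [if_neg (fun h => h1 h.1)]
    have e1 : bb c (x + d' + d) = 1 := if_pos (by simpa using h1)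
    rw [e1]
    simp

theorem dgg_le (b : Bool) (d d' x : G) : dgg c b d d' x ≤ 4 := by
  unfold dgg
  split_ifs <;> omega

theorem edd_le (b : Bool) (d d' x : G) : edd c b d d' x ≤ 16 := by
  unfold edd
  split_ifs
  · calc dgg c b d d' x * dgg c b d d' (x + d) ≤ 4 * 4 :=
        Nat.mul_le_mul (dgg_le c b d d' x) (dgg_le c b d d' (x + d))
      _ = 16 := by norm_num
  · omega

end

theorem ed_one {n : ℕ} (c : Tor 2 n → Bool) (b : Bool) (x : Tor 2 n) :
    ed c b 1 x = edd c b (e 1) (e 0) x := by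
  have h : ∀ y, dg c b y = dgg c b (e 1) (e 0) y := by
    intro y
    unfold dg dgg
    rw [Fin.sum_univ_two]
    ring
  unfold ed edd
  rw [h, h]

theorem ed_zero {n : ℕ} (c : Tor 2 n → Bool) (b : Bool) (x : Tor 2 n) :
    ed c b 0 x = edd c b (e 0) (e 1) x := by
  have h : ∀ y, dg c b y = dgg c b (e 0) (e 1) y := by
    intro y
    unfold dg dgg
    rw [Fin.sum_univ_two]
  unfold ed edd
  rw [h, h]

theorem sum_shift {G : Type} [AddCommGroup G] [Fintype G] (d : G) (f : G → ℕ) :
    ∑ x, f (x + d) = ∑ x, f x :=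
  Equiv.sum_comp (Equiv.addRight d) f

theorem cmpl_spec {w t₁ t₂ κ o D p q a : ℕ} (hC : Cert w t₁ t₂ κ o D p q a) (r₀ r₁ r₂ : ℕ)
    (h0 : r₀ < 16) (h1 : r₁ < 16) (h2 : r₂ < 16) :
    get w t₁ (r₀ + 16 * r₁ + 256 * r₂) + get w t₂ (r₀ + 16 * r₁ + 256 * r₂) =
    2 * D * (q * eB r₀ r₁ r₂ + p * (16 - eR r₀ r₁ r₂)) + 2 * o := by
  have h := all_spec _ (all_spec _ (all_spec _ hC.1 r₀ h0) r₁ h1) r₂ h2
  exact Nat.eq_of_beq_eq_true h

theorem chk_spec {w t₁ t₂ κ o D p q a : ℕ} (hC : Cert w t₁ t₂ κ o D p q a) (r₀ r₁ r₂ r₃ : ℕ)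
    (h0 : r₀ < 16) (h1 : r₁ < 16) (h2 : r₂ < 16) (h3 : r₃ < 16) :
    κ * (pc (r₀ &&& a) + pc r₁ + pc r₂ + pc (r₃ &&& a)) + 4 * o ≤
    get w t₁ (r₀ + 16 * r₁ + 256 * r₂) + get w t₂ (r₁ + 16 * r₂ + 256 * r₃) +
      get w t₁ ((sp r₀ + 2 * sp r₁ + 4 * sp r₂ + 8 * sp r₃) % 4096) +
      get w t₂ ((sp r₀ + 2 * sp r₁ + 4 * sp r₂ + 8 * sp r₃) / 16) := by
  have h := all_spec _ (all_spec _ (all_spec _ (all_spec _ hC.2 r₀ h0) r₁ h1) r₂ h2) r₃ h3
  exact Nat.le_of_ble_eq_true h

theorem sum_pc {G : Type} [AddCommGroup G] [Fintype G] (c : G → Bool) (d : G) :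
    ∑ x, pc (ln (bb c) d x) = 4 * ∑ x, bb c x := by
  have h : ∀ x, pc (ln (bb c) d x) =
      bb c x + bb c (x + d) + bb c (x + d + d) + bb c (x + d + d + d) :=
    pc_ln (bb c) (bb_le c) d
  simp only [h, Finset.sum_add_distrib]
  have s1 := sum_shift d (fun x => bb c x)
  have s2 := sum_shift (d + d) (fun x => bb c x)
  have s3 := sum_shift (d + d + d) (fun x => bb c x)
  simp only [← add_assoc] at s1 s2 s3
  rw [s1, s2, s3]
  ring

theorem sum_pc6 {G : Type} [AddCommGroup G] [Fintype G] (c : G → Bool) (d : G) :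
    ∑ x, pc (ln (bb c) d x &&& 6) = 2 * ∑ x, bb c x := by
  have h : ∀ x, pc (ln (bb c) d x &&& 6) = bb c (x + d) + bb c (x + d + d) :=
    pc_and6 (bb c) (bb_le c) d
  simp only [h, Finset.sum_add_distrib]
  have s1 := sum_shift d (fun x => bb c x)
  have s2 := sum_shift (d + d) (fun x => bb c x)
  simp only [← add_assoc] at s1 s2
  rw [s1, s2]
  ring

theorem sum_pc15 {G : Type} [AddCommGroup G] [Fintype G] (c : G → Bool) (d : G) :
    ∑ x, pc (ln (bb c) d x &&& 15) = 4 * ∑ x, bb c x := by
  rw [← sum_pc c d]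
  refine Finset.sum_congr rfl (fun x _ => ?_)
  rw [and15 _ (ln_lt (bb c) (bb_le c) d x)]

theorem sum_gen {G : Type} [AddCommGroup G] [Fintype G] (c : G → Bool) (u v : G)
    {w t₁ t₂ κ o D p q a s : ℕ} (ha : (a = 6 ∧ s = 12) ∨ (a = 15 ∧ s = 16))
    (hC : Cert w t₁ t₂ κ o D p q a) :
    s * κ * ∑ x, bb c x + 2 * D * p * (∑ x, edd c true v u x + ∑ x, edd c true u v x) ≤
      2 * D * q * (∑ x, edd c false v u x + ∑ x, edd c false u v x) +
        64 * D * p * Fintype.card G := by
  set B := bb c with hBdef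
  have hB : ∀ x, B x ≤ 1 := bb_le c
  have hl : ∀ d x, ln B d x < 16 := ln_lt B hB
  -- pointwise inequality
  have hp : ∀ x, κ * (pc (ln B v x &&& a) + pc (ln B v (x + u)) + pc (ln B v (x + u + u)) +
      pc (ln B v (x + u + u + u) &&& a)) + 4 * o ≤
      get w t₁ (ln B v x + 16 * ln B v (x + u) + 256 * ln B v (x + u + u)) +
      get w t₂ (ln B v (x + u) + 16 * ln B v (x + u + u) + 256 * ln B v (x + u + u + u)) +
      get w t₁ (ln B u x + 16 * ln B u (x + v) + 256 * ln B u (x + v + v)) +
      get w t₂ (ln B u (x + v) + 16 * ln B u (x + v + v) + 256 * ln B u (x + v + v + v)) := by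
    intro x
    have h := chk_spec hC (ln B v x) (ln B v (x + u)) (ln B v (x + u + u))
      (ln B v (x + u + u + u)) (hl _ _) (hl _ _) (hl _ _) (hl _ _)
    rw [window_mod B hB, window_div B hB] at h
    exact h
  have hsum := Finset.sum_le_sum (fun x (_ : x ∈ (Finset.univ : Finset G)) => hp x)
  simp only [Finset.sum_add_distrib] at hsum
  have sh1 := sum_shift u (fun x => get w t₂ (ln B v x + 16 * ln B v (x + u) +
    256 * ln B v (x + u + u)))
  have sh2 := sum_shift v (fun x => get w t₂ (ln B u x + 16 * ln B u (x + v) +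
    256 * ln B u (x + v + v)))
  rw [sh1, sh2] at hsum
  -- the complementary tables
  have cm : ∀ d d' x, get w t₁ (ln B d x + 16 * ln B d (x + d') + 256 * ln B d (x + d' + d')) +
      get w t₂ (ln B d x + 16 * ln B d (x + d') + 256 * ln B d (x + d' + d')) =
      2 * D * (q * edd c false d d' (x + d' + d) + p * (16 - edd c true d d' (x + d' + d))) +
        2 * o := by
    intro d d' x
    rw [cmpl_spec hC _ _ _ (hl _ _) (hl _ _) (hl _ _), eB_ln, eR_ln]
  have cms : ∀ d d', ∑ x, get w t₁ (ln B d x + 16 * ln B d (x + d') +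
        256 * ln B d (x + d' + d')) +
      ∑ x, get w t₂ (ln B d x + 16 * ln B d (x + d') + 256 * ln B d (x + d' + d')) +
      2 * D * p * ∑ x, edd c true d d' x =
      2 * D * q * ∑ x, edd c false d d' x + 32 * D * p * Fintype.card G +
        2 * o * Fintype.card G := by
    intro d d'
    rw [← Finset.sum_add_distrib, Finset.sum_congr rfl (fun x _ => cm d d' x)]
    have t1 := sum_shift (d' + d) (fun x => edd c true d d' x)
    have t2 := sum_shift (d' + d) (fun x => edd c false d d' x)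
    simp only [← add_assoc] at t1 t2
    rw [← t1, ← t2, Finset.mul_sum, Finset.mul_sum, ← Finset.sum_add_distrib]
    have hcard : 32 * D * p * Fintype.card G + 2 * o * Fintype.card G =
        ∑ _x : G, (32 * D * p + 2 * o) := by
      rw [Finset.sum_const, Finset.card_univ, smul_eq_mul]
      ring
    rw [add_assoc, hcard, ← Finset.sum_add_distrib]
    refine Finset.sum_congr rfl (fun x _ => ?_)
    have hle := edd_le c true d d' (x + d' + d)
    obtain ⟨y, hy⟩ := Nat.exists_eq_add_of_le hle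
    have hy' : 16 - edd c true d d' (x + d' + d) = y := by omega
    rw [hy']
    have : 32 * D * p = 2 * D * p * 16 := by ring
    rw [this, hy]
    ring
  have c1 := cms v u
  have c2 := cms u v
  -- the left side
  have hL : ∑ x, κ * (pc (ln B v x &&& a) + pc (ln B v (x + u)) + pc (ln B v (x + u + u)) +
      pc (ln B v (x + u + u + u) &&& a)) = s * κ * ∑ x, B x := by
    rw [← Finset.mul_sum]
    simp only [Finset.sum_add_distrib]
    have s1 := sum_shift u (fun x => pc (ln B v x))
    have s2 := sum_shift (u + u) (fun x => pc (ln B v x))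
    have s3 := sum_shift (u + u + u) (fun x => pc (ln B v x &&& a))
    simp only [← add_assoc] at s1 s2 s3
    rw [s1, s2, s3]
    have hpc := sum_pc c v
    rw [← hBdef] at hpc
    rcases ha with ⟨rfl, rfl⟩ | ⟨rfl, rfl⟩
    · have h6 := sum_pc6 c v
      rw [← hBdef] at h6
      rw [h6, hpc]
      ring
    · have h15 := sum_pc15 c v
      rw [← hBdef] at h15
      rw [h15, hpc]
      ring
  rw [hL, Finset.sum_const, Finset.card_univ, smul_eq_mul] at hsum
  have k1 : Fintype.card G * (4 * o) = 4 * (o * Fintype.card G) := by ring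
  have k2 : 2 * o * Fintype.card G = 2 * (o * Fintype.card G) := by ring
  have k3 : 64 * D * p * Fintype.card G = 2 * (32 * D * p * Fintype.card G) := by ring
  rw [k1] at hsum
  rw [k2] at c1 c2
  rw [k3, mul_add, mul_add]
  omega

theorem win (hSUM : T_SUM) : T_WIN := by
  intro w t₁ t₂ κ o D p q a s ha hC n _ c
  have h := sum_gen c (e 0) (e 1) ha hC
  have hsz : size c false = ∑ x, bb c x := by
    unfold size bb
    rw [Finset.card_filter]
  have hcard : Fintype.card (Tor 2 n) = n ^ 2 := by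
    simp [Tor, ZMod.card]
  have st : ∀ b, total c b 3 = 2 * (∑ x, edd c b (e 1) (e 0) x + ∑ x, edd c b (e 0) (e 1) x) := by
    intro b
    rw [hSUM n c b, Finset.sum_add_distrib]
    congr 1
    rw [add_comm, Finset.sum_congr rfl (fun x _ => ed_one c b x),
      Finset.sum_congr rfl (fun x _ => ed_zero c b x)]
  rw [hsz, st true, st false]
  rw [hcard] at h
  calc s * κ * ∑ x, bb c x + D * p * (2 * (∑ x, edd c true (e 1) (e 0) x +
        ∑ x, edd c true (e 0) (e 1) x))
      = s * κ * ∑ x, bb c x + 2 * D * p * (∑ x, edd c true (e 1) (e 0) x +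
        ∑ x, edd c true (e 0) (e 1) x) := by ring
    _ ≤ _ := h
    _ = _ := by ring

end Pool.Agent.H43.TC
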